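import Pool.Agent.V1143.KC.Congr

/-!
# The conjecture of Birch and Swinnerton-Dyer for congruent elliptic curves over function fields

Let `K` be the function field of a curve over the finite field `k` with `q` elements, of characteristic at
least `5`, and `ℓ` a prime not dividing `q`. Let `E` and `E'` be elliptic curves over `K` whose Euler factors
are congruent modulo `ℓ` at all places outside a finite set `B`; this is true, with `B` the set of the places
of bad reduction of `E` or `E'`, if `E[ℓ]` and `E'[ℓ]` are isomorphic Galois modules, or have isomorphic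
semisimplifications.

For a polynomial write `m` for the multiplicity of the zero `1 / q` modulo `ℓ`. The theorem compares the
`L`-functions of `E` and `E'` over `K` and over ALL Galois extensions `L` of `K` of degree a power of `ℓ`, with
any field of constants: the difference of the multiplicities of the central zero modulo `ℓ` is given exactly by
the Euler factors at the places in `B`. So a bound for the order of vanishing of `L(T, E/L)` is obtained from the
curve `E'`, and the conjecture of Birch and Swinnerton-Dyer for `E` over `L` follows when it is attained.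
-/

set_option autoImplicit false

open Polynomial FF Module Pool.Agent.W343.BSD Pool.Agent.W313.Gr Pool.Agent.V308.KD

namespace Pool.Agent.Results.MP_48b749_nt.CongruentCurves

/-- The Euler factors of `y² = x³ + a x + b` and `y² = x³ + a' x + b'` are congruent modulo `ℓ` at all places
which are not in `B`. -/
def CongruentOff {k K : Type} [Field k] [Field K] [Algebra k K] (ℓ : ℕ) (B : Finset (Place k K))
    (a b a' b' : K) : Prop :=
  ∀ v : Place k K, v ∉ B → (S.locFactor v a b).map (Int.castRingHom (ZMod ℓ)) =
    (S.locFactor v a' b').map (Int.castRingHom (ZMod ℓ))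

/-- `L` is the function field of a curve over the finite field `k'`, and a Galois extension of `K` of degree
a power of `ℓ`; if `ℓ` is `2` or `3`, it is not ramified at the places of additive reduction of
`y² = x³ + a x + b`; and `Q` is the `L`-function of this curve over `L` as a polynomial in `T`. -/
structure IsCovering (k K k' L : Type) [Field k] [Field K] [Algebra k K] [Field k'] [Field L]
    [Algebra k' L] [Algebra k k'] [Algebra k L] [Algebra K L] (ℓ : ℕ) (a b : K) (Q : ℤ[X]) :
    Prop where
  curve : IsCurveField k' L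
  finite : FiniteDimensional K L
  galois : IsGalois K L
  degree : ∃ s : ℕ, finrank K L = ℓ ^ s
  additive : ℓ ∣ 6 → ∀ v : Place k K, IsAdditive v a b → ramIndex L v = 1
  lfun : S.Lfun k' (algebraMap K L a) (algebraMap K L b) = (Q : PowerSeries ℤ)

/-- The sum over the places `v` in `B` of `([L : K] / e_v) m(P_v)`, where `P_v` is the Euler factor of
`y² = x³ + a x + b` at `v` and `e_v` the ramification index of `v` in the Galois extension `L`. -/
noncomputable def localSum {k K : Type} (L : Type) [Field k] [Field K] [Algebra k K] [Field L]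
    [Algebra k L] [Algebra K L] (ℓ : ℕ) [Fact ℓ.Prime] (B : Finset (Place k K)) (a b : K) : ℕ :=
  ∑ v ∈ B, finrank K L / ramIndex L v * mult ℓ (Nat.card k) (S.locFactor v a b)

/-- Tate's inequality: the rank is at most the order of vanishing of the `L`-function. -/
def TateInequality (k' : Type) {L : Type} [Field k'] [Field L] [Algebra k' L] (a b : L) : Prop :=
  ∀ r : ℕ, HasOrder k' a b r → rank a b ≤ r

/-- Let `E : y² = x³ + a x + b` and `E' : y² = x³ + a' x + b'` have congruent Euler factors modulo `ℓ` outside
`B`, and `L`-functions `P`, `P'` over `K`.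
(1) `m(P) + ∑_{v ∈ B} m(P_v) = m(P') + ∑_{v ∈ B} m(P'_v)`.
(2) For every Galois extension `L` of `K` of degree a power of `ℓ`, with the field of constants `k'` and the
`L`-functions `Q`, `Q'` over `L`,
`[k' : k] m(Q) + ∑_{v ∈ B} ([L : K] / e_v) m(P_v) = [k' : k] m(Q') + ∑_{v ∈ B} ([L : K] / e_v) m(P'_v)`;
in particular (no place of `B` ramified) `[k' : k] m(Q) + [L : K] m(P') = [k' : k] m(Q') + [L : K] m(P)`.
(3) If `E(L)` has `n` independent points, the rank of `E(L)` is at most the order (Tate), and
`[k' : k] m(Q') + ∑_{v ∈ B} ([L : K] / e_v) m(P'_v) ≤ [k' : k] n + ∑_{v ∈ B} ([L : K] / e_v) m(P_v)`, then the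
conjecture of Birch and Swinnerton-Dyer is true for `E` over `L`: rank and order are `n`.
(4) If `m(Q') = 0` and `m(P'_v) ≤ m(P_v)` for all `v` in `B` (for instance, if `ℓ` does not divide the number of
nonsingular points of the reduction of `E'` at any `v` in `B`), then `m(Q) = 0` and `m(P_v) = m(P'_v)` for all `v`
in `B`; the orders of vanishing over `L` are `0` for both curves, and the ranks are `0` by Tate's inequality.
Moreover `m(P_v) = 0` if and only if `ℓ` does not divide the number of nonsingular points of the reduction at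
`v`. -/
theorem result (k K : Type) [Field k] [Finite k] [Field K] [Algebra k K] (h6 : (6 : k) ≠ 0)
    (hK : IsCurveField k K) (ℓ : ℕ) [Fact ℓ.Prime] (hℓ : (ℓ : k) ≠ 0) (a b a' b' : K)
    (hE : 4 * a ^ 3 + 27 * b ^ 2 ≠ 0) (hE' : 4 * a' ^ 3 + 27 * b' ^ 2 ≠ 0) (P P' : ℤ[X])
    (hP : S.Lfun k a b = (P : PowerSeries ℤ)) (hP' : S.Lfun k a' b' = (P' : PowerSeries ℤ))
    (B : Finset (Place k K)) (hB : CongruentOff ℓ B a b a' b') :
    -- (1)
    (mult ℓ (Nat.card k) P + ∑ v ∈ B, mult ℓ (Nat.card k) (S.locFactor v a b) =
      mult ℓ (Nat.card k) P' + ∑ v ∈ B, mult ℓ (Nat.card k) (S.locFactor v a' b')) ∧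
    (∀ v : Place k K, mult ℓ (Nat.card k) (S.locFactor v a b) = 0 ↔
      ¬ (ℓ : ℤ) ∣ numPoints v a b) ∧
    ∀ (k' L : Type) [Field k'] [Finite k'] [Field L] [Algebra k' L] [Algebra k k'] [Algebra k L]
      [Algebra K L] [IsScalarTower k K L] [IsScalarTower k k' L] (Q Q' : ℤ[X]),
      IsCovering k K k' L ℓ a b Q → IsCovering k K k' L ℓ a' b' Q' →
      -- (2)
      (finrank k k' * mult ℓ (Nat.card k') Q + localSum (k := k) L ℓ B a b =
        finrank k k' * mult ℓ (Nat.card k') Q' + localSum (k := k) L ℓ B a' b') ∧
      ((∀ v ∈ B, ramIndex L v = 1) →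
        finrank k k' * mult ℓ (Nat.card k') Q + finrank K L * mult ℓ (Nat.card k) P' =
          finrank k k' * mult ℓ (Nat.card k') Q' + finrank K L * mult ℓ (Nat.card k) P) ∧
      -- (3)
      (∀ n : ℕ, (n : Cardinal) ≤ rank (algebraMap K L a) (algebraMap K L b) →
        TateInequality k' (algebraMap K L a) (algebraMap K L b) →
        finrank k k' * mult ℓ (Nat.card k') Q' + localSum (k := k) L ℓ B a' b' ≤
          finrank k k' * n + localSum (k := k) L ℓ B a b →
        HasOrder k' (algebraMap K L a) (algebraMap K L b) n ∧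
          rank (algebraMap K L a) (algebraMap K L b) = n) ∧
      -- (4)
      (mult ℓ (Nat.card k') Q' = 0 →
        (∀ v ∈ B, mult ℓ (Nat.card k) (S.locFactor v a' b') ≤
          mult ℓ (Nat.card k) (S.locFactor v a b)) →
        mult ℓ (Nat.card k') Q = 0 ∧
        (∀ v ∈ B, mult ℓ (Nat.card k) (S.locFactor v a b) =
          mult ℓ (Nat.card k) (S.locFactor v a' b')) ∧
        HasOrder k' (algebraMap K L a) (algebraMap K L b) 0 ∧
        HasOrder k' (algebraMap K L a') (algebraMap K L b') 0 ∧
        (TateInequality k' (algebraMap K L a) (algebraMap K L b) →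
          rank (algebraMap K L a) (algebraMap K L b) = 0) ∧
        (TateInequality k' (algebraMap K L a') (algebraMap K L b') →
          rank (algebraMap K L a') (algebraMap K L b') = 0)) := by
  classical
  have i1 : FF.IsFF k K := ⟨hK.essFiniteType, hK.trdeg_eq_one⟩
  have hone := Pool.Agent.V1143.KC.congr_mult hE hE' B hB hP hP'
  refine ⟨hone, fun v => mult_loc hℓ hE v, ?_⟩
  intro k' L _ _ _ _ _ _ _ _ _ Q Q' hL hL'
  obtain ⟨s, hs⟩ := hL.degree
  have j1 := hL.finite
  have j2 := hL.galois
  obtain ⟨c1, c2, c3, c4, c5, c6⟩ := kida_full k K k' L h6 hK hL.curve ℓ s hℓ hs a b hE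
    hL.additive P Q hP hL.lfun
  obtain ⟨d1, d2, d3, d4, d5, d6⟩ := kida_full k K k' L h6 hK hL'.curve ℓ s hℓ hs a' b' hE'
    hL'.additive P' Q' hP' hL'.lfun
  have hx : ∀ v, v ∉ B → mult ℓ (Nat.card k) (S.locFactor v a b) =
      mult ℓ (Nat.card k) (S.locFactor v a' b') := by
    intro v hv
    unfold mult
    rw [hB v hv]
  have htwo : finrank k k' * mult ℓ (Nat.card k') Q + localSum (k := k) L ℓ B a b =
      finrank k k' * mult ℓ (Nat.card k') Q' + localSum (k := k) L ℓ B a' b' :=
    Pool.Agent.V1143.KC.combine (finrank K L) (finrank k k') _ _ _ _ (fun v => ramIndex L v) _ _ B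
      c1 hx hone c2 d2
  have hfin : FiniteDimensional k k' := Module.Finite.of_finite
  have hpos : 0 < finrank k k' := finrank_pos
  have hram := Pool.Agent.V1143.KC.ram_pos (k := k) (K := K) (L := L)
  refine ⟨htwo, fun hu => ?_, fun n hn hT hk => ?_, fun hm hle => ?_⟩
  · have e1 : ∀ x y : K, localSum (k := k) L ℓ B x y =
        finrank K L * ∑ v ∈ B, mult ℓ (Nat.card k) (S.locFactor v x y) := by
      intro x y
      unfold localSum
      rw [Finset.mul_sum]
      refine Finset.sum_congr rfl fun v hv => ?_
      rw [hu v hv, Nat.div_one]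
    rw [e1, e1] at htwo
    have e2 : finrank K L * mult ℓ (Nat.card k) P +
        finrank K L * ∑ v ∈ B, mult ℓ (Nat.card k) (S.locFactor v a b) =
        finrank K L * mult ℓ (Nat.card k) P' +
          finrank K L * ∑ v ∈ B, mult ℓ (Nat.card k) (S.locFactor v a' b') := by
      rw [← Nat.mul_add, hone, Nat.mul_add]
    omega
  · obtain ⟨r, hr⟩ : ∃ r : ℕ, HasOrder k' (algebraMap K L a) (algebraMap K L b) r :=
      ⟨_, Q, hL.lfun, rfl⟩
    have h1 := c5 r hr
    rw [← c2] at h1
    have h2 : r ≤ n := by
      have h3 : finrank k k' * r ≤ finrank k k' * n := by omega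
      exact Nat.le_of_mul_le_mul_left h3 hpos
    have h3 := hT r hr
    have h4 : n ≤ r := by
      have h5 : (n : Cardinal) ≤ r := hn.trans h3
      exact_mod_cast h5
    have h5 : r = n := le_antisymm h2 h4
    rw [h5] at h3 hr
    exact ⟨hr, le_antisymm h3 hn⟩
  · have hls : localSum (k := k) L ℓ B a' b' ≤ localSum (k := k) L ℓ B a b :=
      Finset.sum_le_sum fun v hv => Nat.mul_le_mul_left _ (hle v hv)
    rw [hm, Nat.mul_zero, Nat.zero_add] at htwo
    have h0 : finrank k k' * mult ℓ (Nat.card k') Q = 0 := by omega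
    have hQ0 : mult ℓ (Nat.card k') Q = 0 := (Nat.mul_eq_zero.1 h0).resolve_left hpos.ne'
    have heq : localSum (k := k) L ℓ B a' b' = localSum (k := k) L ℓ B a b := by omega
    have hterm : ∀ v ∈ B, mult ℓ (Nat.card k) (S.locFactor v a b) =
        mult ℓ (Nat.card k) (S.locFactor v a' b') := by
      intro v hv
      have h1 := (Finset.sum_eq_sum_iff_of_le
        (fun v hv => Nat.mul_le_mul_left (finrank K L / ramIndex L v) (hle v hv))).1 heq v hv
      exact (Nat.eq_of_mul_eq_mul_left (hram v) h1).symm
    obtain ⟨h1, h2⟩ := c4.1 hQ0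
    obtain ⟨h3, h4⟩ := d4.1 hm
    obtain ⟨g1, g2⟩ := c6 h1 h2
    obtain ⟨g3, g4⟩ := d6 h3 h4
    exact ⟨hQ0, hterm, g1, g3, g2, g4⟩

end Pool.Agent.Results.MP_48b749_nt.CongruentCurves
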