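import Pool.Agent.TH943.KD.Kd
import Pool.Agent.W313.Gr.Ord
import Pool.Agent.Y701.R1.Ram

/-!
# Kida's formula for elliptic curves over function fields

The multiplicity, modulo a prime `ℓ`, of the central zero of the `L`-function of an elliptic curve in
Galois extensions of degree a power of `ℓ`, and its consequences for the conjecture of Birch and
Swinnerton-Dyer.
-/

set_option autoImplicit false
set_option linter.all false
set_option maxHeartbeats 4000000

open Polynomial FF Module Pool.Agent.W343.BSD Pool.Agent.W313.Gr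

namespace Pool.Agent.Results.MP_48b749_nt.KidaFormula

section defs

/-- The place `w` of `L` lies over the place `v` of `K`, with the ramification index `e`. -/
def LiesOver {k K L : Type} [Field k] [Field K] [Algebra k K] [Field L] [Algebra k L] [Algebra K L]
    (w : Place k L) (v : Place k K) (e : ℕ) : Prop :=
  0 < e ∧ ∀ f : K, w.ord (algebraMap K L f) = e * v.ord f

/-- The ramification index of `v` in the Galois extension `L` of `K` (the largest of the ramification
indices of the places of `L` over `v`, which are all equal). -/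
noncomputable def ramIndex {k K : Type} (L : Type) [Field k] [Field K] [Algebra k K] [Field L]
    [Algebra k L] [Algebra K L] (v : Place k K) : ℕ :=
  sSup {e : ℕ | ∃ w : Place k L, LiesOver w v e}

/-- The reduction at `v` is additive. -/
def IsAdditive {k K : Type} [Field k] [Field K] [Algebra k K] (v : Place k K) (a b : K) : Prop :=
  condExp v a b = 2

/-- The multiplicity of the zero `1 / q` of the reduction of `P` modulo `ℓ`. -/
noncomputable def mult (ℓ : ℕ) [Fact ℓ.Prime] (q : ℕ) (P : ℤ[X]) : ℕ :=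
  (P.map (Int.castRingHom (ZMod ℓ))).rootMultiplicity ((q : ZMod ℓ)⁻¹)

open Classical in
/-- The number of the nonsingular points of the reduction of `E` at `v`:
`q_v + 1 - a_v` for good reduction and `q_v - a_v` for bad reduction. -/
noncomputable def numPoints {k K : Type} [Field k] [Field K] [Algebra k K] (v : Place k K)
    (a b : K) : ℤ :=
  (Nat.card (S.Res v) : ℤ) - S.trace v a b + if v.ord (minDisc v a b) = 0 then 1 else 0

end defs

section additive

variable {k K L : Type} [Field k] [Field K] [Algebra k K] [Field L] [Algebra k L] [Algebra K L]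
  [IsScalarTower k K L]

/-- additive reduction stays additive if the ramification index is prime to six -/
theorem additive_over {w : Place k L} {v : Place k K} {e : ℕ} (h : Over w v e)
    (he : Nat.Coprime e 6) {a b : K} (hΔ : 4 * a ^ 3 + 27 * b ^ 2 ≠ 0)
    (h27 : (27 : v.RF) ≠ 0) (hA : v.red (minA v a b) = 0) (hd : v.red (minDisc v a b) = 0) :
    w.red (minA w (algebraMap K L a) (algebraMap K L b)) = 0 ∧
      w.red (minDisc w (algebraMap K L a) (algebraMap K L b)) = 0 := by
  have hab := ab_of_disc hΔ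
  have hB : v.red (minB v a b) = 0 := by
    unfold minDisc at hd
    rw [red_disc (reg_minA v hab) (reg_minB v hab), hA] at hd
    have h1 : (27 : v.RF) * v.red (minB v a b) ^ 2 = 0 := by linear_combination hd
    exact pow_eq_zero_iff two_ne_zero |>.1 ((mul_eq_zero.1 h1).resolve_left h27)
  have hinj : ∀ x : K, algebraMap K L x = 0 ↔ x = 0 := fun x => by simp
  have hab' : algebraMap K L a ≠ 0 ∨ algebraMap K L b ≠ 0 := by
    rcases hab with h1 | h1
    · left; simpa using h1
    · right; simpa using h1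
  obtain ⟨hc0, hrA, hrB, hmin⟩ := minScale_spec v hab
  obtain ⟨hc0', hrA', hrB', hmin'⟩ := minScale_spec w hab'
  set c := minScale v a b with hc
  set c' := minScale w (algebraMap K L a) (algebraMap K L b) with hc'
  obtain ⟨m, hm⟩ : ∃ m : ℤ, m = w.ord c' - e * v.ord c := ⟨_, rfl⟩
  have hep := h.1
  have e4 : a ≠ 0 → w.ord (c' ^ 4 * algebraMap K L a) = 4 * m + e * v.ord (c ^ 4 * a) := by
    intro ha
    rw [w.ord_mul (pow_ne_zero 4 hc0') (fun h0 => ha ((hinj a).1 h0)), w.ord_pow, h.2,
      v.ord_mul (pow_ne_zero 4 hc0) ha, v.ord_pow, hm]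
    push_cast
    ring
  have e6 : b ≠ 0 → w.ord (c' ^ 6 * algebraMap K L b) = 6 * m + e * v.ord (c ^ 6 * b) := by
    intro hb
    rw [w.ord_mul (pow_ne_zero 6 hc0') (fun h0 => hb ((hinj b).1 h0)), w.ord_pow, h.2,
      v.ord_mul (pow_ne_zero 6 hc0) hb, v.ord_pow, hm]
    push_cast
    ring
  -- the orders at `v`
  have hα : a = 0 ∨ 0 < v.ord (c ^ 4 * a) := by
    by_cases ha : a = 0
    · exact Or.inl ha
    · right
      have h1 := (v.red_eq_zero_iff hrA).1 hA
      rcases h1 with h1 | h1
      · exact absurd h1 (mul_ne_zero (pow_ne_zero 4 hc0) ha)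
      · exact h1
  have hβ : b = 0 ∨ 0 < v.ord (c ^ 6 * b) := by
    by_cases hb : b = 0
    · exact Or.inl hb
    · right
      have h1 := (v.red_eq_zero_iff hrB).1 hB
      rcases h1 with h1 | h1
      · exact absurd h1 (mul_ne_zero (pow_ne_zero 6 hc0) hb)
      · exact h1
  have hα' : a = 0 ∨ 0 ≤ 4 * m + e * v.ord (c ^ 4 * a) := by
    by_cases ha : a = 0
    · exact Or.inl ha
    · right
      rw [← e4 ha]
      exact (w.reg_iff (mul_ne_zero (pow_ne_zero 4 hc0') (fun h0 => ha ((hinj a).1 h0)))).1 hrA'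
  have hβ' : b = 0 ∨ 0 ≤ 6 * m + e * v.ord (c ^ 6 * b) := by
    by_cases hb : b = 0
    · exact Or.inl hb
    · right
      rw [← e6 hb]
      exact (w.reg_iff (mul_ne_zero (pow_ne_zero 6 hc0') (fun h0 => hb ((hinj b).1 h0)))).1 hrB'
  obtain ⟨α, hαd⟩ : ∃ α : ℤ, α = v.ord (c ^ 4 * a) := ⟨_, rfl⟩
  obtain ⟨β, hβd⟩ : ∃ β : ℤ, β = v.ord (c ^ 6 * b) := ⟨_, rfl⟩
  rw [← hαd] at hα hα' hmin e4
  rw [← hβd] at hβ hβ' hmin e6
  have he0 : (0 : ℤ) < e := by exact_mod_cast hep
  have hα1 : a = 0 ∨ 0 < 4 * m + e * α := by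
    by_cases ha : a = 0
    · exact Or.inl ha
    · right
      have h1 := hα.resolve_left ha
      have h2 := hα'.resolve_left ha
      by_contra h3
      have h4 : 4 * m + e * α = 0 := by omega
      have h5 : (4 : ℤ) ∣ e * α := ⟨-m, by linear_combination h4⟩
      have h6 : IsCoprime (4 : ℤ) e := by
        have h7 : Nat.Coprime 4 e := by
          have h8 : Nat.Coprime e 4 := by
            have h9 : Nat.Coprime e 2 := Nat.Coprime.coprime_dvd_right (by norm_num) he
            have : (4 : ℕ) = 2 ^ 2 := by norm_num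
            rw [this]
            exact Nat.Coprime.pow_right 2 h9
          exact h8.symm
        exact Nat.isCoprime_iff_coprime.2 h7
      obtain ⟨α', hα'd⟩ := h6.dvd_of_dvd_mul_left h5
      have h7 : m = -(e * α') := by
        rw [hα'd] at h4
        linarith
      have h8 : 1 ≤ α' := by omega
      have hb : b ≠ 0 := fun hb => hmin ⟨Or.inr (by omega), Or.inl hb⟩
      have h9 : β < 6 := by
        by_contra h10
        exact hmin ⟨Or.inr (by omega), Or.inr (by omega)⟩
      have h10 := hβ'.resolve_left hb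
      rw [h7] at h10
      have h11 : 0 ≤ (e : ℤ) * (β - 6 * α') := by linarith
      have h12 : β - 6 * α' < 0 := by omega
      have h13 := mul_neg_of_pos_of_neg he0 h12
      omega
  have hβ1 : b = 0 ∨ 0 < 6 * m + e * β := by
    by_cases hb : b = 0
    · exact Or.inl hb
    · right
      have h1 := hβ.resolve_left hb
      have h2 := hβ'.resolve_left hb
      by_contra h3
      have h4 : 6 * m + e * β = 0 := by omega
      have h5 : (6 : ℤ) ∣ e * β := ⟨-m, by linear_combination h4⟩
      have h6 : IsCoprime (6 : ℤ) e := Nat.isCoprime_iff_coprime.2 he.symm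
      obtain ⟨β', hβ'd⟩ := h6.dvd_of_dvd_mul_left h5
      have h7 : m = -(e * β') := by
        rw [hβ'd] at h4
        linarith
      have h8 : 1 ≤ β' := by omega
      have ha : a ≠ 0 := fun ha => hmin ⟨Or.inl ha, Or.inr (by omega)⟩
      have h9 : α < 4 := by
        by_contra h10
        exact hmin ⟨Or.inr (by omega), Or.inr (by omega)⟩
      have h10 := hα'.resolve_left ha
      rw [h7] at h10
      have h11 : 0 ≤ (e : ℤ) * (α - 4 * β') := by linarith
      have h12 : α - 4 * β' < 0 := by omega
      have h13 := mul_neg_of_pos_of_neg he0 h12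
      omega
  have r1 : w.red (minA w (algebraMap K L a) (algebraMap K L b)) = 0 := by
    refine (w.red_eq_zero_iff hrA').2 ?_
    rcases hα1 with h1 | h1
    · left; rw [h1, map_zero, mul_zero]
    · by_cases ha : a = 0
      · left; rw [ha, map_zero, mul_zero]
      · right; rw [e4 ha]; exact h1
  have r2 : w.red (minB w (algebraMap K L a) (algebraMap K L b)) = 0 := by
    refine (w.red_eq_zero_iff hrB').2 ?_
    rcases hβ1 with h1 | h1
    · left; rw [h1, map_zero, mul_zero]
    · by_cases hb : b = 0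
      · left; rw [hb, map_zero, mul_zero]
      · right; rw [e6 hb]; exact h1
  refine ⟨r1, ?_⟩
  unfold minDisc
  rw [red_disc (reg_minA w hab') (reg_minB w hab'), r1, r2]
  ring

end additive

section bound

open Pool.Agent.H123R3.ZT Pool.Agent.TH943.KD

variable {k K L : Type} [Field k] [Finite k] [Field K] [Algebra k K] [FF.IsFF k K] [Field L]
  [Algebra k L] [Algebra K L] [IsScalarTower k K L] [FF.IsFF k L] [FiniteDimensional K L]
  [IsGalois K L]

/-- the exact multiplicity, over the same constants -/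
theorem kida_eq' (h6 : (6 : k) ≠ 0) {l s : ℕ} [Fact l.Prime] (hn : finrank K L = l ^ s)
    {a b : K} (hΔ : 4 * a ^ 3 + 27 * b ^ 2 ≠ 0) {S : Place k K → Finset (Place k L)}
    {e f : Place k K → ℕ} (D : ∀ v, GaloisFiber v (S v) (e v) (f v)) (B : Finset (Place k K))
    (hB : ∀ v, v ∉ B → e v = 1)
    (hadd : ∀ v ∈ B, Nat.Coprime (e v) 6 ∨ v.red (minA v a b) ≠ 0 ∨ v.red (minDisc v a b) ≠ 0)
    {P : Polynomial ℤ} (hP : Lfun k a b = (P : PowerSeries ℤ))
    (x : ZMod l) (Q : Polynomial (ZMod l))
    (hQ : redL l (Lfun k (algebraMap K L a) (algebraMap K L b)) = (Q : PowerSeries (ZMod l))) :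
    Q.rootMultiplicity x = l ^ s * (P.map (Int.castRingHom (ZMod l))).rootMultiplicity x +
      ∑ v ∈ B, (l ^ s - l ^ s / e v) * (locML l v a b).rootMultiplicity x := by
  classical
  have hid := kida_identity hn hΔ D B hB hP
  rw [hQ, ← Polynomial.coe_mul] at hid
  have hid' := Polynomial.coe_injective _ hid
  set P' := P.map (Int.castRingHom (ZMod l)) with hP'
  have hP0 : P' ≠ 0 := by
    intro h
    have h1 := lfun_modL (k := k) l a b
    rw [hP, redL_poly, ← hP', h, Polynomial.coe_zero, zero_mul] at h1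
    exact zero_ne_one h1
  have hQ0 : Q ≠ 0 := by
    intro h
    have h1 := lfun_modL (k := k) l (algebraMap K L a) (algebraMap K L b)
    rw [hQ, h, Polynomial.coe_zero, zero_mul] at h1
    exact zero_ne_one h1
  have hpne : ∀ v ∈ B, locML l v a b ^ l ^ s ≠ 0 := fun v _ => pow_ne_zero _ (locML_ne l v a b)
  have hwne : ∀ v ∈ B, ∏ w ∈ S v, locML l w (algebraMap K L a) (algebraMap K L b) ≠ 0 :=
    fun v _ => Finset.prod_ne_zero_iff.2 fun w _ => locML_ne l w _ _
  have hmu := congrArg (Polynomial.rootMultiplicity x) hid'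
  rw [rm_mul x (pow_ne_zero _ hP0) (Finset.prod_ne_zero_iff.2 hpne), rm_pow x hP0,
    rm_prod x _ _ hpne, rm_mul x hQ0 (Finset.prod_ne_zero_iff.2 hwne), rm_prod x _ _ hwne] at hmu
  have h27 : ∀ v : Place k K, (27 : v.RF) ≠ 0 := by
    intro v h
    have h3 : (3 : v.RF) ≠ 0 := by
      have := ne_RF v (three_ne h6)
      exact_mod_cast this
    apply h3
    have : (3 : v.RF) ^ 3 = 0 := by
      rw [← h]; norm_num
    exact pow_eq_zero_iff three_ne_zero |>.1 this
  have h27L : ∀ w : Place k L, (27 : w.RF) ≠ 0 := by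
    intro v h
    have h3 : (3 : v.RF) ≠ 0 := by
      have := ne_RF v (three_ne h6)
      exact_mod_cast this
    apply h3
    have : (3 : v.RF) ^ 3 = 0 := by
      rw [← h]; norm_num
    exact pow_eq_zero_iff three_ne_zero |>.1 this
  have hΔ' : 4 * algebraMap K L a ^ 3 + 27 * algebraMap K L b ^ 2 ≠ 0 := by
    have e1 : 4 * algebraMap K L a ^ 3 + 27 * algebraMap K L b ^ 2 =
        algebraMap K L (4 * a ^ 3 + 27 * b ^ 2) := by
      rw [map_add, map_mul, map_mul, map_pow, map_pow, map_ofNat, map_ofNat]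
    rw [e1]; exact (_root_.map_ne_zero _).2 hΔ
  have hepos : ∀ v, 0 < e v := by
    intro v
    have hmul := (D v).mul
    rw [hn] at hmul
    rcases Nat.eq_zero_or_pos (e v) with h0 | h0
    · rw [h0, zero_mul, mul_zero] at hmul
      exact absurd hmul.symm (pow_ne_zero s (Fact.out : l.Prime).ne_zero)
    · exact h0
  have hloc : ∀ v ∈ B, l ^ s / e v * (locML l v a b).rootMultiplicity x =
      (∏ w ∈ S v, locML l w (algebraMap K L a) (algebraMap K L b)).rootMultiplicity x := by
    intro v hv
    obtain ⟨j, hj⟩ := fiber_pow (D v) hn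
    have h1 : ∀ w ∈ S v, locML l w (algebraMap K L a) (algebraMap K L b) =
        locML l v a b ^ f v := fun w hw => by
      by_cases hcase : v.red (minA v a b) ≠ 0 ∨ v.red (minDisc v a b) ≠ 0
      · exact locML_over ((D v).isOver w hw) ((D v).deg w hw) hj hΔ (Or.inr hcase)
      · have hco := (hadd v hv).resolve_right hcase
        push Not at hcase
        obtain ⟨r1, r2⟩ := additive_over ((D v).isOver w hw) hco hΔ (h27 v) hcase.1 hcase.2
        rw [locML_add l v hΔ (h27 v) hcase.1 hcase.2, one_pow,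
          locML_add l w hΔ' (h27L w) r1 r2]
    rw [Finset.prod_congr rfl h1, Finset.prod_const, ← pow_mul, rm_pow x (locML_ne l v a b)]
    congr 1
    have hmul := (D v).mul
    rw [hn] at hmul
    rw [← hmul, show (S v).card * (e v * f v) = e v * (f v * (S v).card) by ring,
      Nat.mul_div_cancel_left _ (hepos v)]
  have hsum : ∑ v ∈ B, (locML l v a b ^ l ^ s).rootMultiplicity x =
      ∑ v ∈ B, (l ^ s - l ^ s / e v) * (locML l v a b).rootMultiplicity x +
      ∑ v ∈ B, (∏ w ∈ S v,
        locML l w (algebraMap K L a) (algebraMap K L b)).rootMultiplicity x := by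
    rw [← Finset.sum_add_distrib]
    refine Finset.sum_congr rfl fun v hv => ?_
    rw [rm_pow x (locML_ne l v a b), ← hloc v hv, ← Nat.add_mul]
    congr 1
    exact (Nat.sub_add_cancel (Nat.div_le_self _ _)).symm
  omega

end bound

section consts

open Pool.Agent.H123R3.ZT Pool.Agent.TH943.KD

variable {k K k' L : Type} [Field k] [Finite k] [Field K] [Algebra k K] [FF.IsFF k K]
  [Field k'] [Finite k'] [Field L] [Algebra k' L] [Algebra k k'] [Algebra k L] [Algebra K L]
  [IsScalarTower k K L] [IsScalarTower k k' L] [FF.IsFF k L] [FF.IsFF k' L]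
  [FiniteDimensional K L] [IsGalois K L]

/-- the multiplicity over the larger field of constants -/
theorem kida_const (h6 : (6 : k) ≠ 0)
    (hconst : ∀ a : K, IsAlgebraic k a → a ∈ (algebraMap k K).range)
    {l s : ℕ} [hl : Fact l.Prime] (hn : finrank K L = l ^ s) {a b : K}
    (hΔ : 4 * a ^ 3 + 27 * b ^ 2 ≠ 0) {S : Place k K → Finset (Place k L)}
    {e f : Place k K → ℕ} (D : ∀ v, GaloisFiber v (S v) (e v) (f v)) (B : Finset (Place k K))
    (hB : ∀ v, v ∉ B → e v = 1)
    (hadd : ∀ v ∈ B, Nat.Coprime (e v) 6 ∨ v.red (minA v a b) ≠ 0 ∨ v.red (minDisc v a b) ≠ 0)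
    {P : Polynomial ℤ}
    (hP : Lfun k a b = (P : PowerSeries ℤ)) (Q : Polynomial ℤ)
    (hQ : Lfun k' (algebraMap K L a) (algebraMap K L b) = (Q : PowerSeries ℤ)) :
    finrank k k' *
        (Q.map (Int.castRingHom (ZMod l))).rootMultiplicity ((Nat.card k' : ℕ) : ZMod l)⁻¹ =
      finrank K L *
        (P.map (Int.castRingHom (ZMod l))).rootMultiplicity ((Nat.card k : ℕ) : ZMod l)⁻¹ +
      ∑ v ∈ B, (finrank K L - finrank K L / e v) *
        (locML l v a b).rootMultiplicity ((Nat.card k : ℕ) : ZMod l)⁻¹ := by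
  classical
  have : FiniteDimensional k k' := Module.Finite.of_finite
  have hr : finrank k k' ≠ 0 := finrank_pos.ne'
  obtain ⟨i, hi⟩ := constants_pow (L := L) hconst hn hr
  set q : ZMod l := ((Nat.card k : ℕ) : ZMod l) with hq
  have hrel := lfun_rel (k := k) (k' := k') hr (algebraMap K L a) (algebraMap K L b)
  rw [hQ, ← Pool.Agent.W343.BSD.coe_expand] at hrel
  have hQ' : redL l (Lfun k (algebraMap K L a) (algebraMap K L b)) =
      (((Polynomial.expand ℤ (finrank k k') Q).map (Int.castRingHom (ZMod l)) :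
        Polynomial (ZMod l)) : PowerSeries (ZMod l)) := by
    rw [hrel, redL_poly]
  have hmain := kida_eq' h6 hn hΔ D B hB hadd hP q⁻¹ _ hQ'
  have hcard : ((Nat.card k' : ℕ) : ZMod l)⁻¹ = q⁻¹ := by
    rw [Pool.Agent.TH943.KD.card_pow (k := k), hi, ZMod.pow_card_pow]
  have hex : ExpChar (ZMod l) l := inferInstance
  rw [Polynomial.map_expand, hi, Polynomial.rootMultiplicity_expand_pow, ZMod.pow_card_pow] at hmain
  rw [hcard, hi, hn]
  exact hmain

end consts

section final

open Pool.Agent.H123R3.ZT Pool.Agent.TH943.KD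

variable {k K L : Type} [Field k] [Finite k] [Field K] [Algebra k K] [FF.IsFF k K]
  [Field L] [Algebra k L] [Algebra K L] [IsScalarTower k K L] [FF.IsFF k L]
  [FiniteDimensional K L] [IsGalois K L]

theorem over_unique {w : Place k L} {v : Place k K} {e e' : ℕ} (h : Over w v e)
    (h' : Over w v e') : e = e' := by
  obtain ⟨t, ht0, ht⟩ := v.surj
  have h1 := h.2 t
  have h2 := h'.2 t
  rw [ht, mul_one] at h1 h2
  rw [h1] at h2
  exact_mod_cast h2

theorem ramIndex_eq {v : Place k K} {S : Finset (Place k L)} {e f : ℕ} (D : GaloisFiber v S e f) :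
    ramIndex L v = e := by
  unfold ramIndex
  have h1 : {e' : ℕ | ∃ w : Place k L, LiesOver w v e'} = {e} := by
    ext e'
    constructor
    · rintro ⟨w, hw⟩
      have hw' : Over w v e' := hw
      exact over_unique hw' (D.isOver w (D.mem w e' hw'))
    · intro h
      rw [Set.mem_singleton_iff] at h
      subst h
      obtain ⟨w, hw⟩ := D.nonempty
      exact ⟨w, D.isOver w hw⟩
  rw [h1, csSup_singleton]

open Classical in
theorem eval_mul {l : ℕ} [Fact l.Prime] (hlk : (l : k) ≠ 0) {a b : K}
    (hΔ : 4 * a ^ 3 + 27 * b ^ 2 ≠ 0) (v : Place k K) :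
    (locML l v a b).eval ((Nat.card k : ℕ) : ZMod l)⁻¹ * ((Nat.card k : ℕ) : ZMod l) ^ v.deg =
      ((numPoints v a b : ℤ) : ZMod l) := by
  have hq := card_ne_zero_mod (k := k) hlk
  set q : ZMod l := ((Nat.card k : ℕ) : ZMod l) with hqdef
  have hqd : q ^ v.deg * q⁻¹ ^ v.deg = 1 := by
    rw [← mul_pow, mul_inv_cancel₀ hq, one_pow]
  have h3 : ((Nat.card (S.Res v) : ℕ) : ZMod l) = q ^ v.deg := card_RFl v
  have h4 : ((Nat.card v.RF : ℕ) : ZMod l) = q ^ v.deg := card_RFl v
  have h5 : ((S.trace v a b : ℤ) : ZMod l) = ((trace v a b : ℤ) : ZMod l) := rfl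
  unfold numPoints
  rw [locML_eq]
  by_cases hg : v.ord (minDisc v a b) = 0
  · rw [if_pos ((S.ord_disc_iff v hΔ).1 hg), if_pos hg]
    simp only [Polynomial.eval_add, Polynomial.eval_sub, Polynomial.eval_one, Polynomial.eval_mul,
      Polynomial.eval_C, Polynomial.eval_pow, Polynomial.eval_X]
    rw [h4, mul_comm 2, pow_mul]
    push_cast
    rw [h3, h5]
    linear_combination (-((trace v a b : ℤ) : ZMod l) + q ^ v.deg * q⁻¹ ^ v.deg + 1) * hqd
  · rw [if_neg (fun h => hg ((S.ord_disc_iff v hΔ).2 h)), if_neg hg]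
    simp only [Polynomial.eval_add, Polynomial.eval_sub, Polynomial.eval_one, Polynomial.eval_mul,
      Polynomial.eval_C, Polynomial.eval_pow, Polynomial.eval_X, Polynomial.eval_zero]
    push_cast
    rw [h3, h5]
    linear_combination (-((trace v a b : ℤ) : ZMod l)) * hqd

theorem mult_loc {l : ℕ} [Fact l.Prime] (hlk : (l : k) ≠ 0) {a b : K}
    (hΔ : 4 * a ^ 3 + 27 * b ^ 2 ≠ 0) (v : Place k K) :
    mult l (Nat.card k) (S.locFactor v a b) = 0 ↔ ¬ (l : ℤ) ∣ numPoints v a b := by
  have hq := card_ne_zero_mod (k := k) hlk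
  have h1 : mult l (Nat.card k) (S.locFactor v a b) =
      (locML l v a b).rootMultiplicity ((Nat.card k : ℕ) : ZMod l)⁻¹ := by
    unfold mult locML
    rw [S.locFactor_eq v hΔ]
  rw [h1, Polynomial.rootMultiplicity_eq_zero_iff, ← ZMod.intCast_zmod_eq_zero_iff_dvd,
    ← eval_mul hlk hΔ v]
  constructor
  · intro h h0
    have h2 := (mul_eq_zero.1 h0).resolve_right (pow_ne_zero _ hq)
    exact locML_ne l v a b (h h2)
  · intro h h0
    exfalso
    apply h
    rw [Polynomial.IsRoot.def] at h0
    rw [h0, zero_mul]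

/-- the order over the rational numbers is at most the multiplicity modulo the prime -/
theorem order_le {l : ℕ} [Fact l.Prime] (hlk : (l : k) ≠ 0) {Q : ℤ[X]}
    (hQ0 : Q.map (Int.castRingHom (ZMod l)) ≠ 0) {r : ℕ}
    (hr : (Q.map (Int.castRingHom ℚ)).rootMultiplicity ((Nat.card k : ℚ)⁻¹) = r) :
    r ≤ mult l (Nat.card k) Q := by
  have hq := card_ne_zero_mod (k := k) hlk
  have hq0 : Nat.card k ≠ 0 := Nat.card_pos.ne'
  obtain ⟨G, hG⟩ := dvd_of_mult hq0 hr
  have h1 : Q.map (Int.castRingHom (ZMod l)) =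
      (1 - C ((Nat.card k : ℕ) : ZMod l) * X) ^ r * G.map (Int.castRingHom (ZMod l)) := by
    rw [hG, Polynomial.map_mul, Polynomial.map_pow, Polynomial.map_sub, Polynomial.map_one,
      Polynomial.map_mul, Polynomial.map_C, Polynomial.map_X]
    simp
  unfold mult
  rw [h1] at hQ0 ⊢
  have hlin : (1 - C ((Nat.card k : ℕ) : ZMod l) * X : (ZMod l)[X]) ≠ 0 := by
    intro h
    have h1 := congrArg (Polynomial.eval 0) h
    simp at h1
  rw [rm_mul _ (left_ne_zero_of_mul hQ0) (right_ne_zero_of_mul hQ0), rm_pow _ hlin,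
    rm_linear hq, mul_one]
  exact Nat.le_add_right _ _

end final

/-- **Kida's formula for elliptic curves over function fields.**

Let `K` be the function field of a curve over a finite field `k` with `q` elements, of characteristic at
least `5`, `E : y ^ 2 = x ^ 3 + a x + b` an elliptic curve over `K` with `L(T, E/K) = P(T)`, `ℓ` a prime
different from the characteristic, and `L` a finite Galois extension of `K` of degree a power of `ℓ`,
with the field of constants `k'` with `q'` elements, and `L(T, E/L) = Q(T)`. (If `j_E` is not constant,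
`P` and `Q` are polynomials, by Grothendieck.) If `ℓ` is `2` or `3` we assume that `L` is not ramified at
the places of additive reduction of `E`. Let `m` denote the multiplicity of the central zero modulo `ℓ`:
of `1 / q` for `P` and the Euler factors `P_v(T ^ (deg v))` of `E/K`, of `1 / q'` for `Q`. Then

(1) only finitely many places `v` of `K` are ramified in `L`, and with the ramification indices `e_v`
`[k' : k] m(Q) = [L : K] m(P) + ∑ ([L : K] - [L : K] / e_v) m(P_v)`.

(2) `m(P_v) = 0` if and only if `ℓ` does not divide the number of nonsingular points of the reduction of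
`E` at `v`.

(3) `m(Q) = 0`, i.e. the value of `L(T, E/L)` at the central point is a unit at `ℓ`, if and only if this
holds over `K` and `ℓ` does not divide the number of nonsingular points of the reduction of `E` at the
places that are ramified in `L`.

(4) The order of vanishing `r` of `L(T, E/L)` at `1 / q'` satisfies
`[k' : k] r ≤ [L : K] m(P) + ∑ ([L : K] - [L : K] / e_v) m(P_v)`.

(5) Under the condition in (3), `L(T, E/L)` does not vanish at `1 / q'`; so, by Tate's inequality, `E(L)`
is finite, and the conjecture of Birch and Swinnerton-Dyer holds for `E` over `L`. -/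
theorem result (k K k' L : Type) [Field k] [Finite k] [Field K] [Algebra k K] [Field k'] [Finite k']
    [Field L] [Algebra k' L] [Algebra k k'] [Algebra k L] [Algebra K L] [IsScalarTower k K L]
    [IsScalarTower k k' L] [FiniteDimensional K L] [IsGalois K L] (h6 : (6 : k) ≠ 0)
    (hK : IsCurveField k K) (hL : IsCurveField k' L) (ℓ s : ℕ) [Fact ℓ.Prime] (hℓ : (ℓ : k) ≠ 0)
    (hdeg : finrank K L = ℓ ^ s) (a b : K) (hE : 4 * a ^ 3 + 27 * b ^ 2 ≠ 0)
    (hadd : ℓ ∣ 6 → ∀ v : Place k K, IsAdditive v a b → ramIndex L v = 1)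
    (P Q : ℤ[X]) (hP : S.Lfun k a b = (P : PowerSeries ℤ))
    (hQ : S.Lfun k' (algebraMap K L a) (algebraMap K L b) = (Q : PowerSeries ℤ)) :
    {v : Place k K | ramIndex L v ≠ 1}.Finite ∧
    finrank k k' * mult ℓ (Nat.card k') Q = finrank K L * mult ℓ (Nat.card k) P +
      ∑ᶠ v : Place k K, (finrank K L - finrank K L / ramIndex L v) *
        mult ℓ (Nat.card k) (S.locFactor v a b) ∧
    (∀ v : Place k K,
      mult ℓ (Nat.card k) (S.locFactor v a b) = 0 ↔ ¬ (ℓ : ℤ) ∣ numPoints v a b) ∧
    (mult ℓ (Nat.card k') Q = 0 ↔ mult ℓ (Nat.card k) P = 0 ∧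
      ∀ v : Place k K, ramIndex L v ≠ 1 → ¬ (ℓ : ℤ) ∣ numPoints v a b) ∧
    (∀ r : ℕ, HasOrder k' (algebraMap K L a) (algebraMap K L b) r →
      finrank k k' * r ≤ finrank K L * mult ℓ (Nat.card k) P +
        ∑ᶠ v : Place k K, (finrank K L - finrank K L / ramIndex L v) *
          mult ℓ (Nat.card k) (S.locFactor v a b)) ∧
    (mult ℓ (Nat.card k) P = 0 →
      (∀ v : Place k K, ramIndex L v ≠ 1 → ¬ (ℓ : ℤ) ∣ numPoints v a b) →
        HasOrder k' (algebraMap K L a) (algebraMap K L b) 0 ∧
        ((∀ r : ℕ, HasOrder k' (algebraMap K L a) (algebraMap K L b) r →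
            rank (algebraMap K L a) (algebraMap K L b) ≤ r) →
          rank (algebraMap K L a) (algebraMap K L b) = 0)) := by
  classical
  have i1 : FF.IsFF k K := ⟨hK.essFiniteType, hK.trdeg_eq_one⟩
  have i2 : FF.IsFF k' L := ⟨hL.essFiniteType, hL.trdeg_eq_one⟩
  have i3 : FF.IsFF k L := isFF_of_finite (K := K)
  have hΔ' : 4 * algebraMap K L a ^ 3 + 27 * algebraMap K L b ^ 2 ≠ 0 := by
    have e1 : 4 * algebraMap K L a ^ 3 + 27 * algebraMap K L b ^ 2 =
        algebraMap K L (4 * a ^ 3 + 27 * b ^ 2) := by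
      rw [map_add, map_mul, map_mul, map_pow, map_pow, map_ofNat, map_ofNat]
    rw [e1]; exact (_root_.map_ne_zero _).2 hE
  have hD := fun v : Place k K => exists_galoisFiber (L := L) v
  choose St e f D using hD
  have hre : ∀ v, ramIndex L v = e v := fun v => ramIndex_eq (D v)
  have hepos : ∀ v, 0 < e v := by
    intro v
    obtain ⟨w, hw⟩ := (D v).nonempty
    exact ((D v).isOver w hw).1
  have hfin : {v : Place k K | ramIndex L v ≠ 1}.Finite := by
    refine (Pool.Agent.Y701.R1.ram_finite (k := k) (K := K) (L := L)).subset ?_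
    intro v hv
    obtain ⟨w, hw⟩ := (D v).nonempty
    refine ⟨w, e v, (D v).isOver w hw, ?_⟩
    rw [← hre v]
    exact hv
  set B : Finset (Place k K) := hfin.toFinset with hBd
  have hB : ∀ v, v ∉ B → e v = 1 := by
    intro v hv
    rw [hBd, Set.Finite.mem_toFinset] at hv
    by_contra h
    exact hv (by rw [← hre v] at h; exact h)
  have hco : ∀ v ∈ B, Nat.Coprime (e v) 6 ∨ v.red (minA v a b) ≠ 0 ∨
      v.red (minDisc v a b) ≠ 0 := by
    intro v hv
    by_cases hcase : v.red (minA v a b) ≠ 0 ∨ v.red (minDisc v a b) ≠ 0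
    · exact Or.inr hcase
    · left
      have hc := hcase
      push Not at hc
      by_cases h6l : ℓ ∣ 6
      · have h1 : IsAdditive v a b := by
          unfold IsAdditive condExp
          rw [if_neg (fun h => ((S.ord_disc_iff v hE).1 h) hc.2),
            if_neg (fun h => ((S.ord_A_iff v hE).1 h) hc.1)]
        rw [← hre v, hadd h6l v h1]
        exact Nat.coprime_one_left 6
      · have h1 : e v ∣ ℓ ^ s := by
          rw [← hdeg, ← (D v).mul]
          exact Dvd.intro_left ((St v).card * f v) (by ring)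
        exact Nat.Coprime.coprime_dvd_left h1 (Nat.Coprime.pow_left s
          ((Nat.Prime.coprime_iff_not_dvd (Fact.out : ℓ.Prime)).2 h6l))
  have hP' : Lfun k a b = (P : PowerSeries ℤ) := by rw [← S.lfun_eq hE]; exact hP
  have hQ' : Lfun k' (algebraMap K L a) (algebraMap K L b) = (Q : PowerSeries ℤ) := by
    rw [← S.lfun_eq hΔ']; exact hQ
  have hmain := kida_const (k' := k') h6 hK.algClosed hdeg hE D B hB hco hP' Q hQ'
  have hloc : ∀ v : Place k K, mult ℓ (Nat.card k) (S.locFactor v a b) =
      (locML ℓ v a b).rootMultiplicity ((Nat.card k : ℕ) : ZMod ℓ)⁻¹ := by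
    intro v
    unfold mult locML
    rw [S.locFactor_eq v hE]
  have hn0 : finrank K L ≠ 0 := finrank_pos.ne'
  have hsum : ∑ᶠ v : Place k K, (finrank K L - finrank K L / ramIndex L v) *
        mult ℓ (Nat.card k) (S.locFactor v a b) =
      ∑ v ∈ B, (finrank K L - finrank K L / e v) *
        (locML ℓ v a b).rootMultiplicity ((Nat.card k : ℕ) : ZMod ℓ)⁻¹ := by
    rw [finsum_eq_sum_of_support_subset _ (s := B)]
    · refine Finset.sum_congr rfl fun v _ => ?_
      rw [hre v, hloc v]
    · intro v hv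
      rw [Function.mem_support] at hv
      by_contra h
      apply hv
      rw [hre v, hB v h, Nat.div_one, Nat.sub_self, zero_mul]
  have hformula : finrank k k' * mult ℓ (Nat.card k') Q = finrank K L * mult ℓ (Nat.card k) P +
      ∑ᶠ v : Place k K, (finrank K L - finrank K L / ramIndex L v) *
        mult ℓ (Nat.card k) (S.locFactor v a b) := by
    rw [hsum]
    exact hmain
  have hm := fun v => mult_loc (l := ℓ) hℓ hE v
  have i4 : Module.Finite k k' := Module.Finite.of_finite
  have hkk : finrank k k' ≠ 0 := finrank_pos.ne'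
  have hiff : mult ℓ (Nat.card k') Q = 0 ↔ mult ℓ (Nat.card k) P = 0 ∧
      ∀ v : Place k K, ramIndex L v ≠ 1 → ¬ (ℓ : ℤ) ∣ numPoints v a b := by
    have h0 : mult ℓ (Nat.card k') Q = 0 ↔ finrank k k' * mult ℓ (Nat.card k') Q = 0 := by
      rw [mul_eq_zero]
      constructor
      · exact Or.inr
      · intro h
        exact h.resolve_left hkk
    rw [h0, hformula, hsum, Nat.add_eq_zero_iff, mul_eq_zero, Finset.sum_eq_zero_iff]
    constructor
    · rintro ⟨h1, h2⟩
      refine ⟨h1.resolve_left hn0, fun v hv => ?_⟩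
      rw [← hm v, hloc v]
      have hvB : v ∈ B := by
        rw [hBd, Set.Finite.mem_toFinset]
        exact hv
      have h3 := h2 v hvB
      rcases mul_eq_zero.1 h3 with h4 | h4
      · exfalso
        have h5 : 2 ≤ e v := by
          have h6 := hepos v
          have h7 : e v ≠ 1 := by rw [← hre v]; exact hv
          omega
        have h6 : finrank K L / e v < finrank K L := Nat.div_lt_self (Nat.pos_of_ne_zero hn0) h5
        omega
      · exact h4
    · rintro ⟨h1, h2⟩
      refine ⟨Or.inr h1, fun v hv => ?_⟩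
      rw [← hloc v, (hm v).2 (h2 v ?_), mul_zero]
      rw [hBd, Set.Finite.mem_toFinset] at hv
      exact hv
  have hlk' : ((ℓ : ℕ) : k') ≠ 0 := by
    intro h
    apply hℓ
    apply (algebraMap k k').injective
    rw [map_natCast, map_zero, h]
  have hQ0 : Q.map (Int.castRingHom (ZMod ℓ)) ≠ 0 := by
    intro h
    have h1 := lfun_modL (k := k') ℓ (algebraMap K L a) (algebraMap K L b)
    rw [hQ', redL_poly, h, Polynomial.coe_zero, zero_mul] at h1
    exact zero_ne_one h1
  have hord : ∀ r : ℕ, HasOrder k' (algebraMap K L a) (algebraMap K L b) r →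
      r ≤ mult ℓ (Nat.card k') Q := by
    rintro r ⟨P', hP1, hP2⟩
    have hPQ : P' = Q := Polynomial.coe_injective ℤ (by rw [← hP1, hQ])
    subst hPQ
    exact order_le hlk' hQ0 hP2
  refine ⟨hfin, hformula, hm, hiff, fun r hr => ?_, fun h1 h2 => ?_⟩
  · rw [← hformula]
    exact Nat.mul_le_mul_left _ (hord r hr)
  · have h3 := hiff.2 ⟨h1, h2⟩
    have h4 : HasOrder k' (algebraMap K L a) (algebraMap K L b) 0 := by
      refine ⟨Q, hQ, ?_⟩
      have h5 := hord _ ⟨Q, hQ, rfl⟩
      rw [h3] at h5
      exact Nat.le_zero.1 h5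
    refine ⟨h4, fun h5 => ?_⟩
    have h6 := h5 0 h4
    rw [Nat.cast_zero] at h6
    exact le_antisymm h6 zero_le

end Pool.Agent.Results.MP_48b749_nt.KidaFormula
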