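import Pool.Agent.V1194.LE.Ell

/-!
# Leading coefficients of L-functions of elliptic curves over function fields, modulo primes

For elliptic curves over function fields: the leading coefficient of the `L`-function at the central
point, modulo a prime `ℓ`, does not change in Galois extensions of degree a power of `ℓ`.
-/

set_option autoImplicit false
set_option linter.all false
set_option maxHeartbeats 4000000

open Polynomial FF Module Filter Topology Pool.Agent.W343.BSD Pool.Agent.W313.Gr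

namespace Pool.Agent.Results.MP_48b749_nt.LeadingTermsElliptic

section defs

/-- The place `v` of `K` is ramified in `L`: for a place `w` of `L` the normalized valuation of `w`
restricted to `K` is `e` times the one of `v`, with `e > 1`. -/
def Ramified {k K : Type} (L : Type) [Field k] [Field K] [Algebra k K] [Field L] [Algebra k L]
    [Algebra K L] (v : Place k K) : Prop :=
  ∃ (w : Place k L) (e : ℕ), 1 < e ∧ ∀ f : K, w.ord (algebraMap K L f) = e * v.ord f

/-- The reduction at `v` is additive. -/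
def IsAdditive {k K : Type} [Field k] [Field K] [Algebra k K] (v : Place k K) (a b : K) : Prop :=
  condExp v a b = 2

open Classical in
/-- The number of the nonsingular points of the reduction of `E` at `v`:
`q_v + 1 - a_v` for good reduction and `q_v - a_v` for bad reduction. -/
noncomputable def numPoints {k K : Type} [Field k] [Field K] [Algebra k K] (v : Place k K)
    (a b : K) : ℤ :=
  (Nat.card (S.Res v) : ℤ) - S.trace v a b + if v.ord (minDisc v a b) = 0 then 1 else 0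

/-- The multiplicity of the zero `x` of `A`. -/
noncomputable def multAt {F : Type} [Field F] (x : F) (A : F[X]) : ℕ := A.rootMultiplicity x

/-- The leading coefficient of `A` at `x ≠ 0`: the value at `x` of `A / (1 - X / x) ^ m`, with the
multiplicity `m` of the zero `x` (written with the division by the monic polynomial `(X - x) ^ m`). -/
noncomputable def leadAt {F : Type} [Field F] (x : F) (A : F[X]) : F :=
  (-x) ^ multAt x A * (A /ₘ (X - C x) ^ multAt x A).eval x

/-- The order of vanishing of `A` at `1 / q`. -/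
noncomputable def order (q : ℕ) (A : ℤ[X]) : ℕ := multAt ((q : ℚ)⁻¹) (A.map (Int.castRingHom ℚ))

/-- The leading coefficient of `A` at `1 / q`, a rational number: the value at `1 / q` of
`A / (1 - q X) ^ r` with the order of vanishing `r`. -/
noncomputable def leading (q : ℕ) (A : ℤ[X]) : ℚ :=
  leadAt ((q : ℚ)⁻¹) (A.map (Int.castRingHom ℚ))

/-- The multiplicity modulo `ℓ` of the zero `1 / q` of `A`. -/
noncomputable def mult (ℓ : ℕ) [Fact ℓ.Prime] (q : ℕ) (A : ℤ[X]) : ℕ :=
  multAt (((q : ℕ) : ZMod ℓ)⁻¹) (A.map (Int.castRingHom (ZMod ℓ)))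

/-- The leading coefficient at `1 / q` of the reduction of `A` modulo `ℓ`. -/
noncomputable def lead (ℓ : ℕ) [Fact ℓ.Prime] (q : ℕ) (A : ℤ[X]) : ZMod ℓ :=
  leadAt (((q : ℕ) : ZMod ℓ)⁻¹) (A.map (Int.castRingHom (ZMod ℓ)))

/-- The rational number `x` is integral at `ℓ` and `y` is its residue class modulo `ℓ`. -/
def ReducesTo (ℓ : ℕ) [Fact ℓ.Prime] (x : ℚ) (y : ZMod ℓ) : Prop :=
  ∃ a d : ℤ, ¬ (ℓ : ℤ) ∣ d ∧ x = (a : ℚ) / d ∧ y = (a : ZMod ℓ) / d

/-- Two rational numbers are units at `ℓ` and congruent modulo `ℓ`. -/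
def UnitCongruent (ℓ : ℕ) [Fact ℓ.Prime] (x x' : ℚ) : Prop :=
  ∃ y : ZMod ℓ, y ≠ 0 ∧ ReducesTo ℓ x y ∧ ReducesTo ℓ x' y

end defs

section final

open Pool.Agent.H123R3.ZT Pool.Agent.TH943.KD

variable {k K L : Type} [Field k] [Finite k] [Field K] [Algebra k K] [FF.IsFF k K]
  [Field L] [Algebra k L] [Algebra K L] [IsScalarTower k K L] [FF.IsFF k L]
  [FiniteDimensional K L] [IsGalois K L]

open Classical in
theorem eval_mul {l : ℕ} [Fact l.Prime] (hlk : (l : k) ≠ 0) {a b : K}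
    (hΔ : 4 * a ^ 3 + 27 * b ^ 2 ≠ 0) (v : Place k K) :
    (locML l v a b).eval ((Nat.card k : ℕ) : ZMod l)⁻¹ * ((Nat.card k : ℕ) : ZMod l) ^ v.deg =
      ((numPoints v a b : ℤ) : ZMod l) := by
  have hq := card_ne_zero_mod (k := k) hlk
  set q : ZMod l := ((Nat.card k : ℕ) : ZMod l) with hqdef
  have hqd : q ^ v.deg * q⁻¹ ^ v.deg = 1 := by
    rw [← mul_pow, mul_inv_cancel₀ hq, one_pow]
  have h3 : ((Nat.card (S.Res v) : ℕ) : ZMod l) = q ^ v.deg := card_RFl v
  have h4 : ((Nat.card v.RF : ℕ) : ZMod l) = q ^ v.deg := card_RFl v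
  have h5 : ((S.trace v a b : ℤ) : ZMod l) = ((trace v a b : ℤ) : ZMod l) := rfl
  unfold numPoints
  rw [locML_eq]
  by_cases hg : v.ord (minDisc v a b) = 0
  · rw [if_pos ((S.ord_disc_iff v hΔ).1 hg), if_pos hg]
    simp only [Polynomial.eval_add, Polynomial.eval_sub, Polynomial.eval_one, Polynomial.eval_mul,
      Polynomial.eval_C, Polynomial.eval_pow, Polynomial.eval_X]
    rw [h4, mul_comm 2, pow_mul]
    push_cast
    rw [h3, h5]
    linear_combination (-((trace v a b : ℤ) : ZMod l) + q ^ v.deg * q⁻¹ ^ v.deg + 1) * hqd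
  · rw [if_neg (fun h => hg ((S.ord_disc_iff v hΔ).2 h)), if_neg hg]
    simp only [Polynomial.eval_add, Polynomial.eval_sub, Polynomial.eval_one, Polynomial.eval_mul,
      Polynomial.eval_C, Polynomial.eval_pow, Polynomial.eval_X, Polynomial.eval_zero]
    push_cast
    rw [h3, h5]
    linear_combination (-((trace v a b : ℤ) : ZMod l)) * hqd


end final

open Pool.Agent.V1194.LT Pool.Agent.V1194.LE in
/-- **Invariance of the leading coefficients modulo `ℓ`, for elliptic curves.**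

Let `K` be the function field of a curve over a finite field `k` with `q` elements, of characteristic at
least `5`, `E : y ^ 2 = x ^ 3 + a x + b` an elliptic curve over `K` with `L(T, E/K) = P(T)`, `ℓ` a prime
different from the characteristic, and `L` a finite Galois extension of `K` of degree a power of `ℓ`,
with the field of constants `k'` with `q'` elements, and `L(T, E/L) = Q(T)`. (If `j_E` is not constant,
`P` and `Q` are polynomials, by Grothendieck.) If `ℓ` is `2` or `3` we assume that `L` is not ramified at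
the places of additive reduction of `E`; otherwise the ramification is arbitrary.

(1) For every polynomial `A` with `A(0) = 1`: `A = (1 - q X) ^ r H` with the order `r` of vanishing at
`1 / q` and `H(1 / q)` the leading coefficient, a rational number different from `0`, and
`A(q ^ (-s)) / (s - 1) ^ r` tends to `(log q) ^ r` times it for `s → 1`. It is integral at `ℓ`; it is a
unit at `ℓ` if and only if `r` is the multiplicity of the zero modulo `ℓ`, and then its residue class is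
the leading coefficient of the reduction modulo `ℓ`, which is always different from `0`.

(2) The leading coefficients of `P` and `Q` modulo `ℓ` at the central points are equal.

(3) If the leading coefficients of `P` and `Q` are units at `ℓ`, then they are congruent modulo `ℓ`. So, if
`E` satisfies the conjecture over `K` and `L`, with `R_E` divided by `(log q) ^ r`,
`|Ш| R c / (|E(K)_tors| ^ 2 q ^ (g - 1 + χ))` over `K` is congruent modulo `ℓ` to the same number for `L`.

(4) If `P(1 / q)` is a unit at `ℓ` and `ℓ` does not divide the number of nonsingular points of the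
reduction of `E` at the places which are ramified in `L`, then `Q(1 / q')` is a unit at `ℓ`, congruent to
`P(1 / q)`; so, by Tate and Milne, `E(K)` and `E(L)` are finite, the conjecture and the exact formula hold
over `K` and `L`, and `|Ш| c / (|tors| ^ 2 q ^ (g - 1 + χ))` is the same modulo `ℓ` for `K` and `L`.

(5) If `ℓ` divides `P(1 / q)` or one of these numbers of points, then `Q(1 / q')` is divisible by `ℓ`. -/
theorem result (k K k' L : Type) [Field k] [Finite k] [Field K] [Algebra k K] [Field k'] [Finite k']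
    [Field L] [Algebra k' L] [Algebra k k'] [Algebra k L] [Algebra K L] [IsScalarTower k K L]
    [IsScalarTower k k' L] [FiniteDimensional K L] [IsGalois K L] (h6 : (6 : k) ≠ 0)
    (hK : IsCurveField k K) (hL : IsCurveField k' L) (ℓ s : ℕ) [Fact ℓ.Prime] (hℓ : (ℓ : k) ≠ 0)
    (hdeg : finrank K L = ℓ ^ s) (a b : K) (hE : 4 * a ^ 3 + 27 * b ^ 2 ≠ 0)
    (hadd : ℓ ∣ 6 → ∀ v : Place k K, IsAdditive v a b → ¬ Ramified L v)
    (P Q : ℤ[X]) (hP : S.Lfun k a b = (P : PowerSeries ℤ))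
    (hQ : S.Lfun k' (algebraMap K L a) (algebraMap K L b) = (Q : PowerSeries ℤ)) :
    (∀ (q : ℕ) (A : ℤ[X]), 1 < q → ¬ ℓ ∣ q → A.coeff 0 = 1 →
      (∃ H : ℤ[X], A = (1 - C (q : ℤ) * X) ^ order q A * H ∧
        (H.map (Int.castRingHom ℚ)).eval ((q : ℚ)⁻¹) = leading q A) ∧
      leading q A ≠ 0 ∧
      Tendsto (fun s : ℂ => (A.map (Int.castRingHom ℂ)).eval ((q : ℂ) ^ (-s)) /
        (s - 1) ^ order q A) (𝓝[≠] (1 : ℂ))
        (𝓝 ((Real.log q : ℂ) ^ order q A * (leading q A : ℚ))) ∧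
      (∃ G : (ZMod ℓ)[X], A.map (Int.castRingHom (ZMod ℓ)) =
          (1 - C ((q : ℕ) : ZMod ℓ) * X) ^ mult ℓ q A * G ∧
        G.eval (((q : ℕ) : ZMod ℓ)⁻¹) = lead ℓ q A) ∧
      lead ℓ q A ≠ 0 ∧
      ∃ y : ZMod ℓ, ReducesTo ℓ (leading q A) y ∧ (y ≠ 0 ↔ order q A = mult ℓ q A) ∧
        (y ≠ 0 → y = lead ℓ q A)) ∧
    P.coeff 0 = 1 ∧ Q.coeff 0 = 1 ∧
    lead ℓ (Nat.card k') Q = lead ℓ (Nat.card k) P ∧
    (order (Nat.card k) P = mult ℓ (Nat.card k) P →
      order (Nat.card k') Q = mult ℓ (Nat.card k') Q →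
      UnitCongruent ℓ (leading (Nat.card k) P) (leading (Nat.card k') Q)) ∧
    (¬ ReducesTo ℓ ((P.map (Int.castRingHom ℚ)).eval ((Nat.card k : ℚ)⁻¹)) 0 →
      (∀ v : Place k K, Ramified L v → ¬ (ℓ : ℤ) ∣ numPoints v a b) →
      UnitCongruent ℓ ((P.map (Int.castRingHom ℚ)).eval ((Nat.card k : ℚ)⁻¹))
        ((Q.map (Int.castRingHom ℚ)).eval ((Nat.card k' : ℚ)⁻¹)) ∧
      HasOrder k a b 0 ∧ HasOrder k' (algebraMap K L a) (algebraMap K L b) 0) ∧
    ((ReducesTo ℓ ((P.map (Int.castRingHom ℚ)).eval ((Nat.card k : ℚ)⁻¹)) 0 ∨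
      ∃ v : Place k K, Ramified L v ∧ (ℓ : ℤ) ∣ numPoints v a b) →
      ReducesTo ℓ ((Q.map (Int.castRingHom ℚ)).eval ((Nat.card k' : ℚ)⁻¹)) 0) := by
  classical
  have i1 : FF.IsFF k K := ⟨hK.essFiniteType, hK.trdeg_eq_one⟩
  have i2 : FF.IsFF k' L := ⟨hL.essFiniteType, hL.trdeg_eq_one⟩
  have i3 : FF.IsFF k L := isFF_of_finite (K := K)
  have hℓp : ℓ.Prime := Fact.out
  have hΔ' : 4 * algebraMap K L a ^ 3 + 27 * algebraMap K L b ^ 2 ≠ 0 := by
    have e1 : 4 * algebraMap K L a ^ 3 + 27 * algebraMap K L b ^ 2 =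
        algebraMap K L (4 * a ^ 3 + 27 * b ^ 2) := by
      rw [map_add, map_mul, map_mul, map_pow, map_pow, map_ofNat, map_ofNat]
    rw [e1]; exact (_root_.map_ne_zero _).2 hE
  have hD := fun v : Place k K => exists_galoisFiber (L := L) v
  choose St e f D using hD
  have hepos : ∀ v, 0 < e v := by
    intro v
    obtain ⟨w, hw⟩ := (D v).nonempty
    exact ((D v).isOver w hw).1
  have hram : ∀ v, Ramified L v ↔ e v ≠ 1 := by
    intro v
    constructor
    · rintro ⟨w, n, hn, hw⟩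
      have h2 : Over w v n := ⟨by omega, hw⟩
      have h3 := (D v).isOver _ ((D v).mem _ _ h2)
      have h4 : (n : ℤ) = e v := by
        obtain ⟨t, ht⟩ := v.surj
        have h5 := hw t
        have h6 := h3.2 t
        rw [h5] at h6
        rw [ht.2, mul_one, mul_one] at h6
        exact h6
      intro h8
      rw [h8] at h4
      have h9 : n = 1 := by exact_mod_cast h4
      omega
    · intro h
      obtain ⟨w, hw⟩ := (D v).nonempty
      have h3 := (D v).isOver _ hw
      have h4 := hepos v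
      exact ⟨w, e v, by omega, h3.2⟩
  have hfin : {v : Place k K | e v ≠ 1}.Finite := by
    refine (Pool.Agent.Y701.R1.ram_finite (k := k) (K := K) (L := L)).subset ?_
    intro v hv
    obtain ⟨w, hw⟩ := (D v).nonempty
    exact ⟨w, e v, (D v).isOver w hw, hv⟩
  set B : Finset (Place k K) := hfin.toFinset with hBd
  have hB : ∀ v, v ∉ B → e v = 1 := by
    intro v hv
    rw [hBd, Set.Finite.mem_toFinset] at hv
    by_contra h
    exact hv h
  have hBm : ∀ v, v ∈ B → e v ≠ 1 := by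
    intro v hv
    rw [hBd, Set.Finite.mem_toFinset] at hv
    exact hv
  have hco : ∀ v ∈ B, Nat.Coprime (e v) 6 ∨ v.red (minA v a b) ≠ 0 ∨
      v.red (minDisc v a b) ≠ 0 := by
    intro v hv
    by_cases hcase : v.red (minA v a b) ≠ 0 ∨ v.red (minDisc v a b) ≠ 0
    · exact Or.inr hcase
    · left
      have hc := hcase
      push Not at hc
      by_cases h6l : ℓ ∣ 6
      · have h1 : IsAdditive v a b := by
          unfold IsAdditive condExp
          rw [if_neg (fun h => ((S.ord_disc_iff v hE).1 h) hc.2),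
            if_neg (fun h => ((S.ord_A_iff v hE).1 h) hc.1)]
        have h2 := hadd h6l v h1
        rw [hram v, not_not] at h2
        rw [h2]
        exact Nat.coprime_one_left 6
      · have h1 : e v ∣ ℓ ^ s := by
          rw [← hdeg, ← (D v).mul]
          exact Dvd.intro_left ((St v).card * f v) (by ring)
        exact Nat.Coprime.coprime_dvd_left h1 (Nat.Coprime.pow_left s
          ((Nat.Prime.coprime_iff_not_dvd (Fact.out : ℓ.Prime)).2 h6l))
  have hP' : Lfun k a b = (P : PowerSeries ℤ) := by rw [← S.lfun_eq hE]; exact hP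
  have hQ' : Lfun k' (algebraMap K L a) (algebraMap K L b) = (Q : PowerSeries ℤ) := by
    rw [← S.lfun_eq hΔ']; exact hQ
  have hP0 : P.coeff 0 = 1 := coeff_of_lfun hP'
  have hQ0 : Q.coeff 0 = 1 := coeff_of_lfun hQ'
  have hmain := ell_const (k' := k') h6 hdeg hE D B hB hco hP' Q hQ'
  -- the constants
  have hj : Module.Finite k k' := Module.Finite.of_finite
  have hkk : finrank k k' ≠ 0 := finrank_pos.ne'
  obtain ⟨i, hi⟩ := constants_pow (L := L) hK.algClosed hdeg hkk
  have hqk : ((Nat.card k : ℕ) : ZMod ℓ) ≠ 0 := card_ne_zero_mod (k := k) hℓ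
  have hℓk' : (ℓ : k') ≠ 0 := by
    rw [← map_natCast (algebraMap k k')]
    exact (_root_.map_ne_zero _).2 hℓ
  have hqk' : ((Nat.card k' : ℕ) : ZMod ℓ) ≠ 0 := card_ne_zero_mod (k := k') hℓk'
  set x : ZMod ℓ := (((Nat.card k : ℕ) : ZMod ℓ))⁻¹ with hx
  have hx0 : x ≠ 0 := inv_ne_zero hqk
  have hx' : (((Nat.card k' : ℕ) : ZMod ℓ))⁻¹ = x := by
    rw [Module.natCard_eq_pow_finrank (K := k) (V := k'), hi]
    push_cast
    rw [ZMod.pow_card_pow]
  have hne : ∀ A : ℤ[X], A.coeff 0 = 1 → rd ℓ A ≠ 0 := fun A hA =>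
    Pool.Agent.Y701.PE.map_ne_of_coeff hA
  have hepow : ∀ v, ∃ a c : ℕ, e v = ℓ ^ a ∧ ℓ ^ s / e v = ℓ ^ c ∧ a + c = s := by
    intro v
    have h1 : e v ∣ ℓ ^ s := by
      rw [← hdeg, ← (D v).mul]
      exact (dvd_mul_right _ _).mul_left _
    obtain ⟨a, ha, hea⟩ := (Nat.dvd_prime_pow hℓp).1 h1
    refine ⟨a, s - a, hea, ?_, by omega⟩
    rw [hea, Nat.pow_div ha hℓp.pos]
  -- the polynomials
  have hlocne : ∀ v : Place k K, locML ℓ v a b ≠ 0 := fun v => locML_ne ℓ v a b
  have hfac : (∏ v ∈ B, locML ℓ v a b ^ ℓ ^ s) =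
      (∏ v ∈ B, locML ℓ v a b ^ (ℓ ^ s - ℓ ^ s / e v)) *
        ∏ v ∈ B, locML ℓ v a b ^ (ℓ ^ s / e v) := by
    rw [← Finset.prod_mul_distrib]
    refine Finset.prod_congr rfl fun v _ => ?_
    rw [← pow_add, Nat.sub_add_cancel (Nat.div_le_self _ _)]
  have hcan : (∏ v ∈ B, locML ℓ v a b ^ (ℓ ^ s / e v)) ≠ 0 :=
    Finset.prod_ne_zero_iff.2 fun v _ => pow_ne_zero _ (hlocne v)
  rw [hfac, ← mul_assoc, hi] at hmain
  have hpoly : rd ℓ P ^ ℓ ^ s * (∏ v ∈ B, locML ℓ v a b ^ (ℓ ^ s - ℓ ^ s / e v)) =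
      expand (ZMod ℓ) (ℓ ^ i) (rd ℓ Q) := mul_right_cancel₀ hcan hmain
  have hone : ∀ y : ZMod ℓ, y ≠ 0 → ∀ v, y ^ (ℓ ^ s - ℓ ^ s / e v) = 1 := by
    intro y hy v
    obtain ⟨a, c, -, h4, h5⟩ := hepow v
    rw [h4]
    have h6 : ℓ ^ c ≤ ℓ ^ s := Nat.pow_le_pow_right hℓp.pos (by omega)
    have h7 : y ^ (ℓ ^ s - ℓ ^ c) * y ^ ℓ ^ c = y ^ ℓ ^ s := by
      rw [← pow_add, Nat.sub_add_cancel h6]
    rw [ZMod.pow_card_pow, ZMod.pow_card_pow] at h7
    exact mul_right_cancel₀ hy (by rw [h7, one_mul])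
  have hleadeq : ld x (rd ℓ Q) = ld x (rd ℓ P) := by
    have h1 := congrArg (ld x) hpoly
    rw [ld_mul hx0 (pow_ne_zero _ (hne P hP0))
      (Finset.prod_ne_zero_iff.2 fun v _ => pow_ne_zero _ (hlocne v)), ld_pow_l hx0 (hne P hP0),
      ld_expand hx0 (hne Q hQ0), ld_prod hx0 _ fun v _ => pow_ne_zero _ (hlocne v)] at h1
    have h2 : ∀ v ∈ B, ld x (locML ℓ v a b ^ (ℓ ^ s - ℓ ^ s / e v)) = 1 := by
      intro v _
      rw [ld_pow hx0 (hlocne v)]
      exact hone _ (ld_ne hx0 (hlocne v)) v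
    rw [Finset.prod_congr rfl h2, Finset.prod_const_one, mul_one] at h1
    exact h1.symm
  have hlead : ∀ A : ℤ[X], lead ℓ (Nat.card k) A = ld x (rd ℓ A) := fun A => rfl
  have hlead' : ∀ A : ℤ[X], lead ℓ (Nat.card k') A = ld x (rd ℓ A) := by
    intro A
    have h : lead ℓ (Nat.card k') A = ld (((Nat.card k' : ℕ) : ZMod ℓ))⁻¹ (rd ℓ A) := rfl
    rw [h, hx']
  have hlt := Finite.one_lt_card (α := k)
  have hlt' := Finite.one_lt_card (α := k')
  have hgen : ∀ (q : ℕ) (A : ℤ[X]), 1 < q → ((q : ℕ) : ZMod ℓ) ≠ 0 → A.coeff 0 = 1 →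
      (∃ H : ℤ[X], A = (1 - C (q : ℤ) * X) ^ order q A * H ∧
        (H.map (Int.castRingHom ℚ)).eval ((q : ℚ)⁻¹) = leading q A) ∧
      leading q A ≠ 0 ∧
      Tendsto (fun s : ℂ => (A.map (Int.castRingHom ℂ)).eval ((q : ℂ) ^ (-s)) /
        (s - 1) ^ order q A) (𝓝[≠] (1 : ℂ))
        (𝓝 ((Real.log q : ℂ) ^ order q A * (leading q A : ℚ))) ∧
      (∃ G : (ZMod ℓ)[X], A.map (Int.castRingHom (ZMod ℓ)) =
          (1 - C ((q : ℕ) : ZMod ℓ) * X) ^ mult ℓ q A * G ∧
        G.eval (((q : ℕ) : ZMod ℓ)⁻¹) = lead ℓ q A) ∧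
      lead ℓ q A ≠ 0 ∧
      ∃ y : ZMod ℓ, ReducesTo ℓ (leading q A) y ∧ (y ≠ 0 ↔ order q A = mult ℓ q A) ∧
        (y ≠ 0 → y = lead ℓ q A) := by
    intro q A hq1 hq hA
    have hfacts := lead_facts (b := 1) hq hA
    simp only [pow_one] at hfacts
    obtain ⟨H, a1, a2, a3, y, a4, a5, a6⟩ := hfacts
    have hy0 : (((q : ℕ) : ZMod ℓ))⁻¹ ≠ 0 := inv_ne_zero hq
    obtain ⟨G, b1, b2, b3⟩ := exists_ld hy0 (hne A hA)
    refine ⟨⟨H, a1, a2⟩, a3, ?_, ⟨G, ?_, b2⟩, b3, y, a4, a5, a6⟩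
    · have h := lead_limit (b := 1) hq1 (A := A) (H := H) (r := order q A) (by
        rw [pow_one]; exact a1)
      simp only [pow_one, Nat.cast_one] at h
      rw [a2] at h
      exact h
    · rw [inv_inv] at b1
      exact b1
  have hevP : ReducesTo ℓ ((P.map (Int.castRingHom ℚ)).eval ((Nat.card k : ℚ)⁻¹))
      ((rd ℓ P).eval x) := by
    have h := red_eval P (red_inv (b := 1) hqk)
    simp only [pow_one] at h
    exact h
  have hevQ : ReducesTo ℓ ((Q.map (Int.castRingHom ℚ)).eval ((Nat.card k' : ℚ)⁻¹))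
      ((rd ℓ Q).eval x) := by
    have h := red_eval Q (red_inv (b := 1) hqk')
    simp only [pow_one, hx'] at h
    exact h
  have huniq : ∀ (z : ℚ) (y y' : ZMod ℓ), ReducesTo ℓ z y → ReducesTo ℓ z y' → y = y' := by
    rintro z y y' ⟨a1, d1, h1, rfl, rfl⟩ ⟨a2, d2, h2, h3, rfl⟩
    rw [div_eq_div_iff (den_neQ h1) (den_neQ h2)] at h3
    rw [div_eq_div_iff (den_ne h1) (den_ne h2)]
    exact_mod_cast congrArg (fun z : ℤ => (z : ZMod ℓ)) (show a1 * d2 = a2 * d1 by exact_mod_cast h3)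
  have hval : (rd ℓ P).eval x *
      (∏ v ∈ B, (locML ℓ v a b).eval x ^ (ℓ ^ s - ℓ ^ s / e v)) = (rd ℓ Q).eval x := by
    have h1 := congrArg (Polynomial.eval x) hpoly
    rw [Polynomial.eval_mul, eval_pow, ZMod.pow_card_pow, expand_eval, ZMod.pow_card_pow,
      Polynomial.eval_prod] at h1
    simp only [eval_pow] at h1
    exact h1
  have hpts : ∀ v : Place k K, (locML ℓ v a b).eval x = 0 ↔ (ℓ : ℤ) ∣ numPoints v a b := by
    intro v
    rw [← ZMod.intCast_zmod_eq_zero_iff_dvd, ← eval_mul hℓ hE v, mul_eq_zero,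
      or_iff_left (pow_ne_zero _ hqk)]
  have hordzero : ∀ (q : ℕ) (A : ℤ[X]), ((q : ℕ) : ZMod ℓ) ≠ 0 → 1 < q → A.coeff 0 = 1 →
      (rd ℓ A).eval (((q : ℕ) : ZMod ℓ)⁻¹) ≠ 0 →
      (A.map (Int.castRingHom ℚ)).rootMultiplicity ((q : ℚ)⁻¹) = 0 := by
    intro q A hq hq1 hA hv
    refine Polynomial.rootMultiplicity_eq_zero ?_
    intro h0
    rw [Polynomial.IsRoot.def] at h0
    have h := red_eval A (red_inv (b := 1) hq)
    simp only [pow_one] at h
    rw [h0] at h
    have h1 : ReducesTo ℓ 0 0 := ⟨0, 1, by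
      intro h
      have h1 : ℓ ∣ 1 := by exact_mod_cast h
      exact hℓp.one_lt.ne' (Nat.dvd_one.1 h1), by simp, by simp⟩
    exact hv (huniq 0 _ _ h h1)
  refine ⟨fun q A hq1 hq hA => hgen q A hq1 (fun h => hq ((ZMod.natCast_eq_zero_iff q ℓ).1 h)) hA,
    hP0, hQ0, by rw [hlead, hlead', hleadeq], ?_, ?_, ?_⟩
  · intro h1 h2
    obtain ⟨-, -, -, -, c1, y, c2, c3, c4⟩ := hgen _ P hlt hqk hP0
    obtain ⟨-, -, -, -, d1, z, d2, d3, d4⟩ := hgen _ Q hlt' hqk' hQ0
    have hy := c3.2 h1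
    have hz := d3.2 h2
    refine ⟨y, hy, c2, ?_⟩
    rw [c4 hy, hlead, ← hleadeq, ← hlead', ← d4 hz]
    exact d2
  · intro h1 h2
    have h3 : (rd ℓ P).eval x ≠ 0 := by
      intro h
      rw [h] at hevP
      exact h1 hevP
    have h4 : (rd ℓ Q).eval x = (rd ℓ P).eval x := by
      rw [← hval]
      have h5 : ∀ v ∈ B, (locML ℓ v a b).eval x ^ (ℓ ^ s - ℓ ^ s / e v) = 1 := by
        intro v hv
        refine hone _ (fun h6 => ?_) v
        exact h2 v ((hram v).2 (hBm v hv)) ((hpts v).1 h6)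
      rw [Finset.prod_congr rfl h5, Finset.prod_const_one, mul_one]
    refine ⟨⟨(rd ℓ P).eval x, h3, hevP, by rw [← h4]; exact hevQ⟩, ⟨P, hP, ?_⟩, ⟨Q, hQ, ?_⟩⟩
    · exact hordzero _ P hqk hlt hP0 h3
    · exact hordzero _ Q hqk' hlt' hQ0 (by rw [hx', h4]; exact h3)
  · intro h
    have h4 : (rd ℓ Q).eval x = 0 := by
      rw [← hval]
      rcases h with h | ⟨v, hv, hd⟩
      · rw [huniq _ _ _ hevP h, zero_mul]
      · have hvB : v ∈ B := by
          rw [hBd, Set.Finite.mem_toFinset]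
          exact (hram v).1 hv
        rw [Finset.prod_eq_zero hvB, mul_zero]
        rw [(hpts v).2 hd]
        refine zero_pow ?_
        obtain ⟨a, c, ha, h4, h5⟩ := hepow v
        have ha0 : a ≠ 0 := by
          rintro rfl
          exact hBm v hvB (by rw [ha, pow_zero])
        rw [h4]
        have h6 : ℓ ^ c < ℓ ^ s := Nat.pow_lt_pow_right hℓp.one_lt (by omega)
        omega
    rw [← h4]
    exact hevQ

end Pool.Agent.Results.MP_48b749_nt.LeadingTermsElliptic
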