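import Pool.Agent.V11286.RL.Prog
import Pool.Agent.Results.MP_48b749_nt.PositiveProportionOfTwists

/-!
# Arithmetic progressions and differences of quadratic twists with finite Mordell-Weil group and trivial 2-primary part of
# the Tate-Shafarevich group

Let `k` be a finite field of characteristic different from 2 in which `-1` is a square, and let `a`, `b` be coprime
polynomials over `k` such that `a`, `b`, `a - b` have the same degree `N` and none of `a b`, `a (a - b)`, `b (a - b)` is a
constant multiple of a square. Call a monic squarefree polynomial `D`, which satisfies the conditions at the bad places in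
`NonSplitTwists`, good if the twist `E_D : y ^ 2 = x (x - a D) (x - b D)` has finite Mordell-Weil group over `k(t)` and
trivial 2-primary part of the Tate-Shafarevich group. For all large `n`, `n + N` odd:

1. there are three-term arithmetic progressions `D, D + E, D + 2 E` of good polynomials of degree `n`, `E ≠ 0` of degree
  less than `n`;
2. for a constant `r` of any `r` polynomials `E_1, …, E_r` of degree less than `n` two have a difference
  `E_i - E_j = D' - D` with good `D`, `D'` of degree `n`;
3. for a constant `h` and all `E ≠ 0` of degree at most `n - h` there are good `D ≠ D'` of degree `n` which are congruent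
  modulo `E`, with a quotient `(D' - D) / E` of degree less than `h`. In particular (`E = 1`) there are good `D ≠ D'` with
  a difference of bounded degree.
-/

set_option autoImplicit false

namespace Pool.Agent.Results.MP_48b749_nt.ProgressionsOfTwists

open Polynomial Filter Pool.Agent.V11286.RL
open Pool.Agent.Results.MP_48b749_nt.PositiveProportionOfTwists
open Pool.Agent.TH115.GD (Pt ShaTwo)

/-- The monic squarefree polynomials `D` of degree `n`, with the conditions at the bad places, for which the group `E_D(K)`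
is finite and the 2-primary part of the Tate-Shafarevich group of `E_D` over `K` is zero. -/
def Good {k : Type} [Field k] (K : Type) [Field K] [Algebra k[X] K] [IsFractionRing k[X] K] (a b : k[X]) (n : ℕ) : Set k[X] :=
  {D | D ∈ NonSplitTwists a b n ∧ Finite (Pt (twist K a b D) K) ∧ ShaTwo k (twist K a b D)}

/-- **Theorem.** -/
theorem result (k : Type) [Field k] [Finite k] (h2 : (2 : k) ≠ 0) (hi : IsSquare (-1 : k))
    (K : Type) [Field K] [Algebra k[X] K] [IsFractionRing k[X] K] (a b : k[X]) (N : ℕ)
    (hco : IsCoprime a b) (ha : a.natDegree = N) (hb : b.natDegree = N)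
    (hab : (a - b).natDegree = N) (h₁ : NotConstSquare (a * b))
    (h₂ : NotConstSquare (a * (a - b))) (h₃ : NotConstSquare (b * (a - b))) :
    (∀ᶠ n : ℕ in atTop, Odd (n + N) → ∃ D E : k[X], E ≠ 0 ∧ E.degree < n ∧
      D ∈ Good K a b n ∧ D + E ∈ Good K a b n ∧ D + 2 * E ∈ Good K a b n) ∧
    (∃ r : ℕ, ∀ᶠ n : ℕ in atTop, Odd (n + N) → ∀ E : Fin r → k[X], (∀ i, (E i).degree < n) →
      ∃ i j, i < j ∧ ∃ D ∈ Good K a b n, D + (E i - E j) ∈ Good K a b n) ∧
    (∃ h : ℕ, ∀ᶠ n : ℕ in atTop, Odd (n + N) → ∀ E : k[X], E ≠ 0 → E.natDegree + h ≤ n →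
      ∃ g : k[X], g ≠ 0 ∧ g.degree < h ∧ ∃ D ∈ Good K a b n, D + E * g ∈ Good K a b n) := by
  obtain ⟨⟨c, hc0, hc⟩, h⟩ := PositiveProportionOfTwists.result k h2 hi K a b N hco ha hb hab h₁ h₂ h₃
  have h6 := h (1 / 6) (by norm_num)
  have hden : ∀ᶠ n : ℕ in atTop, Odd (n + N) → (c / 6) * (Nat.card k : ℝ) ^ n ≤ ((Good K a b n).ncard : ℝ) := by
    filter_upwards [hc, h6] with n h7 h8 hn
    have e1 := h7 hn
    have e2 := h8 hn
    have e3 : ((Good K a b n).ncard : ℝ) = (({D ∈ NonSplitTwists a b n |
          Finite (Pt (twist K a b D) K) ∧ ShaTwo k (twist K a b D)}).ncard : ℝ) := rfl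
    rw [e3]
    nlinarith
  have hsub : ∀ n, Good K a b n ⊆ Mon k n := fun n D hD => ⟨hD.1.1, hD.1.2.1⟩
  have hc6 : 0 < c / 6 := by positivity
  refine ⟨?_, ?_, ?_⟩
  · filter_upwards [hden, roth (k := k) hc6] with n h7 h8 hn
    obtain ⟨D, E, e1, e2, e3, e4, e5⟩ := h8 _ (hsub n) (h7 hn)
    exact ⟨D, E, e1, mem_degreeLT.1 e2, e3, e4, e5⟩
  · obtain ⟨r, hr⟩ := exists_nat_gt (1 / (c / 6))
    rw [div_lt_iff₀ hc6] at hr
    refine ⟨r, ?_⟩
    filter_upwards [hden] with n h7 hn E hE
    exact diffs hr _ (hsub n) (h7 hn) E (fun i => mem_degreeLT.2 (hE i))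
  · obtain ⟨h, hh⟩ := multiples (k := k) hc6
    refine ⟨h, ?_⟩
    filter_upwards [hden] with n h7 hn E hE0 hE
    exact hh n _ (hsub n) (h7 hn) E hE0 hE

end Pool.Agent.Results.MP_48b749_nt.ProgressionsOfTwists
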